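import Mathlib
import Pool.Agent.helper35.DR.SpecZ

/-! ZKC: inflated cocycles are in `Kc` of the preimage of `N`. -/

set_option autoImplicit false

namespace Pool.Agent.DR

open Pool.Agent.helper58.DC Pool.Agent.DI

theorem ZKC_infl {A : Type} [Group A] (n : ℕ) (N : Subgroup A) (κ : A → A → ℂˣ)
    (hκ : κ ∈ Kc N) :
    (fun x y : Cv A n => κ x.a y.a) ∈ Kc (N.comap (prC A n)) := by
  obtain ⟨⟨h1, h2, h3⟩, b, hb1, hb2⟩ := hκ
  refine ⟨⟨fun x y w => h1 x.a y.a w.a, fun x => h2 x.a, fun x => h3 x.a⟩, fun x => b x.a, ?_, ?_⟩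
  · intro x hx y hy
    exact hb1 x.a hx y.a hy
  · intro q x hx
    exact hb2 q.a x.a hx

theorem ZKC (hKBN : KBN_stmt) (hKCB : KCB_stmt) : ZKC_stmt := by
  intro A _ _ N hN r hr hpN α hα
  obtain ⟨β, hβ, hκ⟩ := hKBN A N hN r hr hpN α hα
  set n : ℕ := r ^ padicValNat r (Nat.card A) with hn
  have hNn : (N.comap (prC A n)).Normal := hN.comap _
  have h1 := ZKC_infl n N _ hκ
  let c : Cv A n → ℂˣ := fun x => (x.z : Bn A n → ℂˣ) ⟨β, hβ⟩
  have hc1 : c 1 = 1 := rfl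
  have h2 := hKCB (Cv A n) (N.comap (prC A n)) hNn c hc1
  have h3 := inv_mem h2
  have h4 := mul_mem h1 h3
  have h5 : (fun x y : Cv A n => α x.a y.a) =
      (fun x y : Cv A n => (α * β⁻¹) x.a y.a) * (fun x y => c x * c y * (c (x * y))⁻¹)⁻¹ := by
    funext x y
    have hc : c (x * y) = c x * c y * β x.a y.a := rfl
    show α x.a y.a = α x.a y.a * (β x.a y.a)⁻¹ * (c x * c y * (c (x * y))⁻¹)⁻¹
    have e : c x * c y * (c x * c y * β x.a y.a)⁻¹ = (β x.a y.a)⁻¹ := by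
      rw [mul_inv (c x * c y), mul_inv_cancel_left]
    rw [hc, e, inv_inv, inv_mul_cancel_right]
  rw [h5]
  exact h4

end Pool.Agent.DR
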