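import Mathlib
import Pool.Agent.helper35.DR.SpecT

/-! TEX: existence of a projective representation associated with an invariant character. -/

set_option autoImplicit false

namespace Pool.Agent.DR

open Pool.Agent.helper58.DC Pool.Agent.DI

/-- scalars as units -/
noncomputable def TEX_sc {V : Type} [AddCommGroup V] [Module ℂ V] : ℂˣ →* (Module.End ℂ V)ˣ :=
  Units.map (algebraMap ℂ (Module.End ℂ V)).toMonoidHom

theorem TEX_sc_val {V : Type} [AddCommGroup V] [Module ℂ V] (c : ℂˣ) (X : (Module.End ℂ V)ˣ) :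
    ((TEX_sc c * X : (Module.End ℂ V)ˣ) : Module.End ℂ V) = (c : ℂ) • (X : Module.End ℂ V) := by
  rw [Units.val_mul, Algebra.smul_def]
  rfl

theorem TEX_sc_comm {V : Type} [AddCommGroup V] [Module ℂ V] (c : ℂˣ) (X : (Module.End ℂ V)ˣ) :
    TEX_sc c * X = X * TEX_sc c := Units.ext (Algebra.commutes _ _)

theorem TEX_sc_inj {V : Type} [AddCommGroup V] [Module ℂ V] [Nontrivial V] (c d : ℂˣ)
    (h : TEX_sc (V := V) c = TEX_sc d) : c = d := by
  have h1 : algebraMap ℂ (Module.End ℂ V) (c : ℂ) = algebraMap ℂ (Module.End ℂ V) (d : ℂ) :=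
    congrArg Units.val h
  exact Units.ext ((algebraMap ℂ (Module.End ℂ V)).injective h1)

/-- an automorphism of `H` which fixes the character is implemented -/
theorem TEX_int {H : Type} [Group H] [Finite H] {V : Type} [AddCommGroup V] [Module ℂ V]
    [FiniteDimensional ℂ V] (ρ : Representation ℂ H V) (hirr : ρ.IsIrreducible) (cs : H →* H)
    (hσ : ∀ n, ρ.character (cs n) = ρ.character n) :
    ∃ T₀ : (Module.End ℂ V)ˣ, ∀ n : H,
      T₀ * MonoidHom.toHomUnits ρ n = MonoidHom.toHomUnits ρ (cs n) * T₀ := by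
  classical
  have : Fintype H := Fintype.ofFinite H
  have hcardne : (Nat.card H : ℂ) ≠ 0 := by
    exact_mod_cast Nat.card_pos.ne'
  have : Invertible (Nat.card H : ℂ) := invertibleOfNonzero hcardne
  let σ : Representation ℂ H V := ρ.comp cs
  have hσc : σ.character = ρ.character := by
    funext n
    exact hσ n
  have hfr : Module.finrank ℂ (ρ.IntertwiningMap σ) = 1 := by
    have h1 := Representation.card_inv_mul_sum_char_mul_char_eq_finrank ρ σ
    rw [hσc, Representation.card_inv_mul_sum_char_mul_char_eq_finrank ρ ρ,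
      Representation.IsIrreducible.finrank_intertwiningMap_self] at h1
    exact_mod_cast h1.symm
  have hnt : Nontrivial (ρ.IntertwiningMap σ) := by
    refine Module.nontrivial_of_finrank_pos (R := ℂ) ?_
    rw [hfr]
    exact one_pos
  obtain ⟨f, hf⟩ := exists_ne (0 : ρ.IntertwiningMap σ)
  have hinj : Function.Injective f :=
    (Representation.IsIrreducible.injective_or_eq_zero f).resolve_right hf
  have hinj' : Function.Injective f.toLinearMap := hinj
  have hu : IsUnit (f.toLinearMap : Module.End ℂ V) :=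
    (LinearMap.isUnit_iff_ker_eq_bot _).2 (LinearMap.ker_eq_bot.2 hinj')
  obtain ⟨T₀, hT₀⟩ := hu
  refine ⟨T₀, fun n => ?_⟩
  refine Units.ext ?_
  rw [Units.val_mul, Units.val_mul, hT₀]
  exact f.isIntertwining' n

/-- Schur -/
theorem TEX_schur {H : Type} [Group H] [Finite H] {V : Type} [AddCommGroup V] [Module ℂ V]
    [FiniteDimensional ℂ V] (ρ : Representation ℂ H V) (hirr : ρ.IsIrreducible)
    (X : (Module.End ℂ V)ˣ)
    (hX : ∀ n : H, X * MonoidHom.toHomUnits ρ n = MonoidHom.toHomUnits ρ n * X) :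
    ∃ c : ℂˣ, X = TEX_sc c := by
  have hVnt : Nontrivial V := by
    by_contra hV
    rw [not_nontrivial_iff_subsingleton] at hV
    obtain ⟨a, b, hab⟩ := hirr.toNontrivial
    refine hab ?_
    refine Subrepresentation.ext ?_
    exact Subsingleton.elim _ _
  let g : ρ.IntertwiningMap ρ :=
    { toLinearMap := (X : Module.End ℂ V)
      isIntertwining' := fun n => congrArg Units.val (hX n) }
  obtain ⟨c, hc⟩ :=
    (Representation.IsIrreducible.algebraMap_intertwiningMap_bijective_of_isAlgClosed (ρ := ρ)).2 g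
  have hc' : (X : Module.End ℂ V) = algebraMap ℂ (Module.End ℂ V) c := by
    have h1 := congrArg Representation.IntertwiningMap.toLinearMap hc
    rw [← show g.toLinearMap = (X : Module.End ℂ V) from rfl, ← h1]
    rfl
  have hc0 : c ≠ 0 := by
    rintro rfl
    rw [map_zero] at hc'
    exact X.ne_zero hc'
  exact ⟨Units.mk0 c hc0, Units.ext hc'⟩

theorem TEX_core {Γ Q : Type} [Group Γ] [Finite Γ] [Group Q] (q : Γ →* Q) (S H : Subgroup Γ)
    (hS : S.map q = ⊤) (hHS : ∀ h ∈ H, h ∈ S) (hHq : ∀ h ∈ H, q h = 1)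
    (hmemH : ∀ x ∈ S, q x = 1 → x ∈ H) (ψ : Γ → ℂ) (hψ : ψ ∈ IrrOn H)
    (hinv : ∀ s ∈ S, funMap (MulAut.conj s) ψ = ψ) :
    ∃ α ∈ Coc Q, ∃ (V : Type) (_ : AddCommGroup V) (_ : Module ℂ V) (_ : FiniteDimensional ℂ V)
    (T : Γ → Module.End ℂ V), T 1 = 1 ∧
    (∀ s ∈ S, ∀ s' ∈ S, T s * T s' = ((α (q s) (q s') : ℂˣ) : ℂ) • T (s * s')) ∧
    ∀ h ∈ H, ψ h = LinearMap.trace ℂ V (T h) := by
  classical
  obtain ⟨hψ0, V, iV, iM, iF, ρ, hirr, hchar⟩ := hψ
  have hVnt : Nontrivial V := by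
    by_contra hV
    rw [not_nontrivial_iff_subsingleton] at hV
    obtain ⟨a, b, hab⟩ := hirr.toNontrivial
    refine hab ?_
    refine Subrepresentation.ext ?_
    exact Subsingleton.elim _ _
  have hconj : ∀ s ∈ S, ∀ h ∈ H, s * h * s⁻¹ ∈ H := by
    intro s hs h hh
    refine hmemH _ (S.mul_mem (S.mul_mem hs (hHS h hh)) (S.inv_mem hs)) ?_
    rw [map_mul, map_mul, hHq h hh, mul_one, ← map_mul, mul_inv_cancel, map_one]
  -- the representation on all of `Γ`
  let R : H →* (Module.End ℂ V)ˣ := MonoidHom.toHomUnits ρ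
  let R' : Γ → (Module.End ℂ V)ˣ := fun x => if h : x ∈ H then R ⟨x, h⟩ else 1
  have hR' : ∀ (x : Γ) (h : x ∈ H), R' x = R ⟨x, h⟩ := fun x h => dif_pos h
  have hR'mul : ∀ x ∈ H, ∀ y ∈ H, R' (x * y) = R' x * R' y := by
    intro x hx y hy
    rw [hR' x hx, hR' y hy, hR' _ (H.mul_mem hx hy), ← map_mul]
    rfl
  have hR'one : R' 1 = 1 := by
    rw [hR' 1 H.one_mem]
    exact map_one R
  -- intertwiners
  have hint : ∀ s ∈ S, ∃ T₀ : (Module.End ℂ V)ˣ, ∀ h ∈ H, T₀ * R' h = R' (s * h * s⁻¹) * T₀ := by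
    intro s hs
    let cs : H →* H :=
      { toFun := fun h => ⟨s * h * s⁻¹, hconj s hs h h.2⟩
        map_one' := Subtype.ext (by simp)
        map_mul' := fun a b => Subtype.ext (by
          show s * ((a : Γ) * b) * s⁻¹ = s * a * s⁻¹ * (s * b * s⁻¹)
          group) }
    obtain ⟨T₀, hT₀⟩ := TEX_int ρ hirr cs (fun n => by
      rw [hchar]
      show ψ (s * n * s⁻¹) = ψ n
      have h1 := congrFun (hinv s⁻¹ (S.inv_mem hs)) (n : Γ)
      simp only [funMap, map_inv, inv_inv, MulAut.conj_apply] at h1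
      exact h1)
    refine ⟨T₀, fun h hh => ?_⟩
    rw [hR' h hh, hR' _ (hconj s hs h hh)]
    exact hT₀ ⟨h, hh⟩
  -- the section
  have hsec : ∀ a : Q, ∃ s, s ∈ S ∧ q s = a := by
    intro a
    have : a ∈ S.map q := by rw [hS]; trivial
    exact this
  choose σ₀ hσ₀S hσ₀q using hsec
  let σ : Q → Γ := fun a => if a = 1 then 1 else σ₀ a
  have hσ1 : σ 1 = 1 := if_pos rfl
  have hσS : ∀ a, σ a ∈ S := by
    intro a
    by_cases ha : a = 1
    · rw [ha, hσ1]; exact S.one_mem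
    · show (if a = 1 then 1 else σ₀ a) ∈ S
      rw [if_neg ha]; exact hσ₀S a
  have hσq : ∀ a, q (σ a) = a := by
    intro a
    by_cases ha : a = 1
    · rw [ha, hσ1, map_one]
    · show q (if a = 1 then 1 else σ₀ a) = a
      rw [if_neg ha]; exact hσ₀q a
  have hT : ∀ a : Q, ∃ T₀ : (Module.End ℂ V)ˣ, (a = 1 → T₀ = 1) ∧
      ∀ h ∈ H, T₀ * R' h = R' (σ a * h * (σ a)⁻¹) * T₀ := by
    intro a
    by_cases ha : a = 1
    · refine ⟨1, fun _ => rfl, fun h hh => ?_⟩
      rw [ha, hσ1]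
      simp
    · obtain ⟨T₀, h⟩ := hint (σ a) (hσS a)
      exact ⟨T₀, fun h1 => absurd h1 ha, h⟩
  choose T₀ hT₀1 hT₀ using hT
  have hkH : ∀ x ∈ S, (σ (q x))⁻¹ * x ∈ H := by
    intro x hx
    refine hmemH _ (S.mul_mem (S.inv_mem (hσS _)) hx) ?_
    rw [map_mul, map_inv, hσq, inv_mul_cancel]
  let U : Γ → (Module.End ℂ V)ˣ := fun x => T₀ (q x) * R' ((σ (q x))⁻¹ * x)
  have hUa : ∀ x ∈ S, ∀ h ∈ H, U (x * h) = U x * R' h := by
    intro x hx h hh
    show T₀ (q (x * h)) * R' ((σ (q (x * h)))⁻¹ * (x * h)) = T₀ (q x) * R' ((σ (q x))⁻¹ * x) * R' h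
    rw [map_mul, hHq h hh, mul_one, mul_assoc (T₀ (q x)), ← hR'mul _ (hkH x hx) h hh, mul_assoc]
  have hUb : ∀ h ∈ H, U h = R' h := by
    intro h hh
    show T₀ (q h) * R' ((σ (q h))⁻¹ * h) = R' h
    rw [hHq h hh, hT₀1 1 rfl, hσ1, inv_one, one_mul, one_mul]
  have hUc : ∀ x ∈ S, ∀ h ∈ H, U x * R' h = R' (x * h * x⁻¹) * U x := by
    intro x hx h hh
    have hk := hkH x hx
    have e1 : R' ((σ (q x))⁻¹ * x) * R' h =
        R' ((σ (q x))⁻¹ * x * h * ((σ (q x))⁻¹ * x)⁻¹) * R' ((σ (q x))⁻¹ * x) := by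
      rw [← hR'mul _ hk _ hh, ← hR'mul _ (H.mul_mem (H.mul_mem hk hh) (H.inv_mem hk)) _ hk]
      congr 1
      group
    have e2 := hT₀ (q x) _ (H.mul_mem (H.mul_mem hk hh) (H.inv_mem hk))
    show T₀ (q x) * R' ((σ (q x))⁻¹ * x) * R' h =
      R' (x * h * x⁻¹) * (T₀ (q x) * R' ((σ (q x))⁻¹ * x))
    rw [mul_assoc, e1, ← mul_assoc, e2, mul_assoc]
    congr 2
    group
  -- scalars
  have hsc : ∀ x ∈ S, ∀ y ∈ S, ∃ c : ℂˣ, U x * U y = TEX_sc c * U (x * y) := by
    intro x hx y hy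
    obtain ⟨c, hc⟩ := TEX_schur ρ hirr ((U (x * y))⁻¹ * (U x * U y)) (fun n => by
      have e1 : MonoidHom.toHomUnits ρ n = R' n := (hR' n n.2).symm
      have e2 := hUc (x * y) (S.mul_mem hx hy) n n.2
      have e3 := hUc y hy n n.2
      have e4 := hUc x hx _ (hconj y hy n n.2)
      have e5 : x * (y * (n : Γ) * y⁻¹) * x⁻¹ = x * y * n * (x * y)⁻¹ := by group
      rw [e5] at e4
      rw [e1]
      calc (U (x * y))⁻¹ * (U x * U y) * R' n = (U (x * y))⁻¹ * (U x * (U y * R' n)) := by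
            simp only [mul_assoc]
        _ = (U (x * y))⁻¹ * (U x * R' (y * n * y⁻¹) * U y) := by rw [e3]; simp only [mul_assoc]
        _ = (U (x * y))⁻¹ * (R' (x * y * n * (x * y)⁻¹) * U x * U y) := by rw [e4]
        _ = (U (x * y))⁻¹ * (R' (x * y * n * (x * y)⁻¹) * U (x * y)) *
            ((U (x * y))⁻¹ * (U x * U y)) := by group
        _ = (U (x * y))⁻¹ * (U (x * y) * R' n) * ((U (x * y))⁻¹ * (U x * U y)) := by rw [e2]
        _ = R' n * ((U (x * y))⁻¹ * (U x * U y)) := by group)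
    refine ⟨c, ?_⟩
    rw [TEX_sc_comm, ← hc]
    group
  have hex : ∀ a b : Q, ∃ c : ℂˣ, U (σ a) * U (σ b) = TEX_sc c * U (σ a * σ b) := fun a b =>
    hsc _ (hσS a) _ (hσS b)
  choose α hα using hex
  have hmul : ∀ x ∈ S, ∀ y ∈ S, U x * U y = TEX_sc (α (q x) (q y)) * U (x * y) := by
    intro x hx y hy
    have hk := hkH x hx
    have hl := hkH y hy
    set k := (σ (q x))⁻¹ * x with hkdef
    set l := (σ (q y))⁻¹ * y with hldef
    have hxk : x = σ (q x) * k := by rw [hkdef]; group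
    have hyl : y = σ (q y) * l := by rw [hldef]; group
    have hk' : (σ (q y))⁻¹ * k * σ (q y) ∈ H := by
      have := hconj (σ (q y))⁻¹ (S.inv_mem (hσS _)) k hk
      rwa [inv_inv] at this
    have e1 : U x = U (σ (q x)) * R' k := by
      conv_lhs => rw [hxk]
      exact hUa _ (hσS _) k hk
    have e2 : U y = U (σ (q y)) * R' l := by
      conv_lhs => rw [hyl]
      exact hUa _ (hσS _) l hl
    have e3 : R' k * U (σ (q y)) = U (σ (q y)) * R' ((σ (q y))⁻¹ * k * σ (q y)) := by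
      rw [hUc _ (hσS _) _ hk']
      congr 2
      group
    have e4 : U (x * y) = U (σ (q x) * σ (q y)) * (R' ((σ (q y))⁻¹ * k * σ (q y)) * R' l) := by
      rw [← hR'mul _ hk' _ hl, ← hUa _ (S.mul_mem (hσS _) (hσS _)) _ (H.mul_mem hk' hl)]
      congr 1
      conv_lhs => rw [hxk, hyl]
      group
    calc U x * U y = U (σ (q x)) * R' k * (U (σ (q y)) * R' l) := by rw [e1, e2]
      _ = U (σ (q x)) * (R' k * U (σ (q y))) * R' l := by simp only [mul_assoc]
      _ = U (σ (q x)) * (U (σ (q y)) * R' ((σ (q y))⁻¹ * k * σ (q y))) * R' l := by rw [e3]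
      _ = U (σ (q x)) * U (σ (q y)) * (R' ((σ (q y))⁻¹ * k * σ (q y)) * R' l) := by
        simp only [mul_assoc]
      _ = TEX_sc (α (q x) (q y)) * U (σ (q x) * σ (q y)) *
          (R' ((σ (q y))⁻¹ * k * σ (q y)) * R' l) := by rw [hα]
      _ = TEX_sc (α (q x) (q y)) * U (x * y) := by rw [e4]; simp only [mul_assoc]
  have hU1 : U 1 = 1 := by rw [hUb 1 H.one_mem, hR'one]
  refine ⟨α, ⟨?_, ?_, ?_⟩, V, iV, iM, iF, fun x => (U x : Module.End ℂ V), ?_, ?_, ?_⟩
  · intro a b c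
    have h1 := hmul (σ a) (hσS a) (σ b) (hσS b)
    have h2 := hmul (σ a * σ b) (S.mul_mem (hσS a) (hσS b)) (σ c) (hσS c)
    have h3 := hmul (σ b) (hσS b) (σ c) (hσS c)
    have h4 := hmul (σ a) (hσS a) (σ b * σ c) (S.mul_mem (hσS b) (hσS c))
    rw [hσq, hσq] at h1 h3
    rw [map_mul, hσq, hσq, hσq] at h2 h4
    apply TEX_sc_inj (V := V)
    have h5 : TEX_sc (V := V) (α a b * α (a * b) c) * U (σ a * σ b * σ c) =
        TEX_sc (α a (b * c) * α b c) * U (σ a * σ b * σ c) := by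
      calc TEX_sc (V := V) (α a b * α (a * b) c) * U (σ a * σ b * σ c)
          = TEX_sc (α a b) * (TEX_sc (α (a * b) c) * U (σ a * σ b * σ c)) := by
            rw [map_mul, mul_assoc]
        _ = TEX_sc (α a b) * (U (σ a * σ b) * U (σ c)) := by rw [h2]
        _ = U (σ a) * U (σ b) * U (σ c) := by rw [h1]; exact (mul_assoc _ _ _).symm
        _ = U (σ a) * (U (σ b) * U (σ c)) := mul_assoc _ _ _
        _ = U (σ a) * (TEX_sc (α b c) * U (σ b * σ c)) := by rw [h3]
        _ = TEX_sc (α b c) * (U (σ a) * U (σ b * σ c)) := by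
            rw [← mul_assoc, ← TEX_sc_comm, mul_assoc]
        _ = TEX_sc (α b c) * (TEX_sc (α a (b * c)) * U (σ a * (σ b * σ c))) := by rw [h4]
        _ = TEX_sc (α a (b * c) * α b c) * U (σ a * σ b * σ c) := by
            rw [← mul_assoc, ← map_mul, mul_comm (α b c), mul_assoc (σ a)]
    exact mul_right_cancel h5
  · intro a
    have h1 := hmul 1 S.one_mem (σ a) (hσS a)
    rw [hσq, map_one, hU1, one_mul, one_mul] at h1
    apply TEX_sc_inj (V := V)
    rw [map_one]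
    have h2 : 1 * U (σ a) = TEX_sc (α 1 a) * U (σ a) := by rw [one_mul]; exact h1
    exact (mul_right_cancel h2).symm
  · intro a
    have h1 := hmul (σ a) (hσS a) 1 S.one_mem
    rw [hσq, map_one, hU1, mul_one, mul_one] at h1
    apply TEX_sc_inj (V := V)
    rw [map_one]
    have h2 : 1 * U (σ a) = TEX_sc (α a 1) * U (σ a) := by rw [one_mul]; exact h1
    exact (mul_right_cancel h2).symm
  · show ((U 1 : (Module.End ℂ V)ˣ) : Module.End ℂ V) = 1
    rw [hU1]; rfl
  · intro s hs s' hs'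
    show (U s : Module.End ℂ V) * (U s' : Module.End ℂ V) = _ • (U (s * s') : Module.End ℂ V)
    rw [← Units.val_mul, hmul s hs s' hs', TEX_sc_val]
  · intro h hh
    have h1 := congrFun hchar ⟨h, hh⟩
    show ψ h = LinearMap.trace ℂ V (U h : Module.End ℂ V)
    rw [hUb h hh, hR' h hh]
    exact h1.symm

/-- TEX -/
theorem TEX : TEX_stmt := by
  intro Γ Q _ _ _ _ q S hS ψ hψ hinv
  obtain ⟨α, hα, V, iV, iM, iF, T, h1, h2, h3⟩ := TEX_core q S (S ⊓ q.ker) hS (fun h hh => hh.1)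
    (fun h hh => hh.2) (fun x hx hq => ⟨hx, hq⟩) ψ hψ hinv
  exact ⟨α, hα, V, iV, iM, iF, T, ⟨h1, h2, h3⟩⟩

end Pool.Agent.DR
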